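import Mathlib

set_option autoImplicit false

namespace Pool.Agent.Results.MP_0fbb7a_co.Yes

variable {A : Type}

/-- the factor of length `n` of `u` at position `i` -/
def blk (u : ℕ → A) (i n : ℕ) : List A := (List.range n).map fun k => u (i + k)

def Fac (u : ℕ → A) : Set (List A) := {w | ∃ i n, w = blk u i n}

noncomputable def C (u : ℕ → A) (n : ℕ) : ℤ := {w ∈ Fac u | w.length = n}.ncard

noncomputable def P (u : ℕ → A) (n : ℕ) : ℤ := {w ∈ Fac u | w.length = n ∧ w.reverse = w}.ncard

noncomputable def T (u : ℕ → A) (n : ℕ) : ℤ := C u (n + 1) - C u n + 2 - P u (n + 1) - P u n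

/-- `v` is a complete return word of `w` in `u` -/
def CRW (u : ℕ → A) (w v : List A) : Prop :=
  v ∈ Fac u ∧ w.length < v.length ∧ w <+: v ∧ w <:+ v ∧
    {i | i + w.length ≤ v.length ∧ w <+: v.drop i}.ncard = 2

variable {u : ℕ → A}

@[simp] theorem len (i n : ℕ) : (blk u i n).length = n := by simp [blk]

theorem get (i n k : ℕ) (h : k < (blk u i n).length) : (blk u i n)[k] = u (i + k) := by simp [blk]

theorem eq_iff {i j n : ℕ} : blk u i n = blk u j n ↔ ∀ k < n, u (i + k) = u (j + k) := by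
  simp [blk, List.map_inj_left]

theorem rev_iff {i j n : ℕ} :
    (blk u i n).reverse = blk u j n ↔ ∀ k l, k + l + 1 = n → u (i + k) = u (j + l) := by
  constructor
  · intro h k l hk
    have := List.getElem_of_eq h (i := l) (by simp; omega)
    rw [List.getElem_reverse, get, get] at this
    rw [← this]
    congr 2
    simp
    omega
  · intro h
    apply List.ext_getElem (by simp)
    intro l h1 h2
    rw [List.getElem_reverse, get, get]
    apply h
    simp at h2 ⊢
    omega

theorem drop_blk (i n d : ℕ) : (blk u i n).drop d = blk u (i + d) (n - d) := by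
  apply List.ext_getElem (by simp)
  intro l h1 h2
  rw [List.getElem_drop, get, get, add_assoc]

theorem pre_iff {i j n m : ℕ} (h : n ≤ m) : blk u i n <+: blk u j m ↔ blk u i n = blk u j n := by
  rw [List.prefix_iff_eq_take, len]
  have : (blk u j m).take n = blk u j n := by
    apply List.ext_getElem (by simp [h])
    intro l h1 h2
    rw [List.getElem_take, get, get]
  rw [this]

def Pal (u : ℕ → A) (i n : ℕ) : Prop := (blk u i n).reverse = blk u i n

theorem ret {K : ℕ} (H : ∀ w v, w ∈ Fac u → w.reverse = w → K ≤ w.length → CRW u w v → v.reverse = v)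
    {b n : ℕ} (hp : Pal u b n) (hn : K ≤ n) (h : ∃ a < b, blk u a n = blk u b n) :
    ∃ a < b, blk u a n = blk u b n ∧ Pal u a (b - a + n) := by
  classical
  obtain ⟨a0, h0, h1⟩ := h
  have hb : b - 1 < b := by omega
  obtain ⟨a, ha, he, hm⟩ : ∃ a < b, blk u a n = blk u b n ∧
      ∀ c, a < c → c < b → blk u c n ≠ blk u b n :=
    ⟨Nat.findGreatest (fun c => blk u c n = blk u b n) (b - 1),
      (Nat.findGreatest_le _).trans_lt hb,
      Nat.findGreatest_spec (P := fun c => blk u c n = blk u b n) (m := a0) (by omega) h1,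
      fun c x y => Nat.findGreatest_is_greatest x (by omega)⟩
  refine ⟨a, ha, he, H (blk u b n) _ ⟨_, _, rfl⟩ hp (by simpa using hn)
    ⟨⟨_, _, rfl⟩, by simp; omega, (pre_iff (by omega)).2 he.symm, ?_, ?_⟩⟩
  · have := List.drop_suffix (b - a) (blk u a (b - a + n))
    rwa [drop_blk, show a + (b - a) = b by omega, show b - a + n - (b - a) = n by omega] at this
  · rw [Set.ncard_eq_two]
    refine ⟨0, b - a, by omega, ?_⟩
    ext i
    simp only [len, Set.mem_ofPred_eq, drop_blk, Set.mem_insert_iff, Set.mem_singleton_iff]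
    constructor
    · rintro ⟨x, y⟩
      rw [pre_iff (by omega)] at y
      by_contra hc
      exact hm (a + i) (by omega) (by omega) y.symm
    · rintro (rfl | rfl)
      · exact ⟨by omega, (pre_iff (by omega)).2 he.symm⟩
      · exact ⟨le_rfl, (pre_iff (by omega)).2 (by rw [show a + (b - a) = b by omega])⟩

theorem trim {i n : ℕ} (h : Pal u i n) (d m : ℕ) (hm : m + 2 * d = n) : Pal u (i + d) m := by
  unfold Pal at *
  rw [rev_iff] at *
  intro k l hk
  rw [add_assoc, add_assoc]
  exact h _ _ (by omega)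

theorem finF [Finite A] (n : ℕ) : {w ∈ Fac u | w.length = n}.Finite :=
  (List.finite_length_eq A n).subset fun _ h => h.2

theorem bnd [Finite A] (n : ℕ) : ∃ M, ∀ i, ∃ c ≤ M, blk u c n = blk u i n := by
  have h1 : (Set.range fun i => blk u i n).Finite :=
    (List.finite_length_eq A n).subset (by rintro _ ⟨i, rfl⟩; simp)
  obtain ⟨s, -, hs, e⟩ := Set.Finite.exists_subset_finite_image_eq (s := Set.univ)
    (f := fun i => blk u i n) h1 (by simp)
  obtain ⟨M, hM⟩ := hs.bddAbove
  refine ⟨M, fun i => ?_⟩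
  have : blk u i n ∈ (fun i => blk u i n) '' s := e ▸ ⟨i, rfl⟩
  obtain ⟨c, x, y⟩ := this
  exact ⟨c, hM x, y⟩

theorem suf [Finite A] {K : ℕ}
    (H : ∀ w v, w ∈ Fac u → w.reverse = w → K ≤ w.length → CRW u w v → v.reverse = v)
    (hi : {w ∈ Fac u | w.reverse = w}.Infinite) :
    ∃ N, ∀ j ≥ N, ∃ a, a + K ≤ j ∧ Pal u a (j - a) := by
  classical
  obtain ⟨M1, h1⟩ := bnd (u := u) K
  obtain ⟨M2, h2⟩ := bnd (u := u) (K + 1)
  refine ⟨M1 + M2 + K + 1, fun j hj => ?_⟩
  have cen : ∀ i L, Pal u i L → K ≤ L → ∃ d m, (m = K ∨ m = K + 1) ∧ m + 2 * d = L ∧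
      Pal u (i + d) m := fun i L hp hL =>
    ⟨(L - K) / 2, L - 2 * ((L - K) / 2), by omega, by omega, trim hp _ _ (by omega)⟩
  have ex : ∃ e, j ≤ e ∧ ∃ b m, (m = K ∨ m = K + 1) ∧ b + m = e ∧ Pal u b m := by
    have : ∃ w ∈ {w ∈ Fac u | w.reverse = w}, ¬ w.length < 2 * j + K + 1 := by
      by_contra hc
      push Not at hc
      exact hi ((List.finite_length_lt A (2 * j + K + 1)).subset hc)
    obtain ⟨_, ⟨⟨i, L, rfl⟩, hp⟩, hL⟩ := this
    rw [len] at hL
    obtain ⟨d, m, x, y, z⟩ := cen i L hp (by omega)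
    exact ⟨i + d + m, by omega, _, m, x, rfl, z⟩
  obtain ⟨he, b, m, hm, hb, hp⟩ := Nat.find_spec ex
  have hmin := fun e (h : e < Nat.find ex) => Nat.find_min ex h
  generalize Nat.find ex = e at *
  rcases he.eq_or_lt with rfl | he
  · exact ⟨b, by omega, by rwa [show j - b = m by omega]⟩
  obtain ⟨a, ha, x, y⟩ := ret H hp (by omega) (by
    rcases hm with rfl | rfl
    · obtain ⟨c, x, y⟩ := h1 b
      exact ⟨c, by omega, y⟩
    · obtain ⟨c, x, y⟩ := h2 b
      exact ⟨c, by omega, y⟩)
  have haj : a + m < j := by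
    by_contra hc
    refine hmin (a + m) (by omega) ⟨by omega, a, m, hm, rfl, ?_⟩
    unfold Pal at *
    rw [x, hp]
  obtain ⟨d, m', x', y', z'⟩ := cen a _ y (by omega)
  have : a + d + m' < j := by
    by_contra hc
    exact hmin (a + d + m') (by omega) ⟨by omega, _, m', x', rfl, z'⟩
  exact ⟨a + (e - j), by omega, trim y _ _ (by omega)⟩

theorem uni [Finite A] {K : ℕ}
    (H : ∀ w v, w ∈ Fac u → w.reverse = w → K ≤ w.length → CRW u w v → v.reverse = v)
    (hi : {w ∈ Fac u | w.reverse = w}.Infinite) :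
    ∃ N, ∀ j ≥ N, ∃ a ≤ j, Pal u a (j - a) ∧ ∀ c < a, blk u c (j - a) ≠ blk u a (j - a) := by
  classical
  obtain ⟨N, hN⟩ := suf H hi
  refine ⟨N, fun j hj => ?_⟩
  have ex := hN j hj
  obtain ⟨x, y⟩ := Nat.find_spec ex
  refine ⟨Nat.find ex, by omega, y, fun c hc e => ?_⟩
  obtain ⟨a, ha, -, z⟩ := ret H y (by omega) ⟨c, hc, e⟩
  refine Nat.find_min ex ha ⟨by omega, ?_⟩
  rwa [show j - a = Nat.find ex - a + (j - Nat.find ex) by omega]

def New (u : ℕ → A) (n : ℕ) : Set ℕ :=
  {i | ∀ c < i, blk u c n ≠ blk u i n ∧ (blk u c n).reverse ≠ blk u i n}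

theorem step {n i a : ℕ} (ha : a ≤ i + 1 + n) (hp : Pal u a (i + 1 + n - a))
    (hu : ∀ c < a, blk u c (i + 1 + n - a) ≠ blk u a (i + 1 + n - a)) :
    i + 1 ∈ New u n ↔ i ∈ New u (n + 1) ∧ ¬ Pal u i (n + 1) := by
  have k : ∀ c, (blk u c (n + 1)).reverse = blk u i (n + 1) →
      (blk u c n).reverse = blk u (i + 1) n := fun c h => by
    rw [rev_iff] at *
    intro k l hk
    rw [add_assoc, add_comm 1]
    exact h _ _ (by omega)
  constructor
  · intro h
    refine ⟨fun c hc => ⟨fun e => (h (c + 1) (by omega)).1 ?_,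
      fun e => (h c (by omega)).2 (k c e)⟩, fun e => (h i (by omega)).2 (k i e)⟩
    rw [eq_iff] at *
    intro k hk
    rw [add_assoc, add_assoc]
    exact e _ (by omega)
  · rintro ⟨h1, h2⟩ c hc
    unfold Pal at hp
    by_cases hai : a ≤ i
    · exfalso
      have : (blk u a (n + 1)).reverse = blk u i (n + 1) := by
        rw [rev_iff] at *
        intro k l hk
        rw [hp k (i - a + l) (by omega)]
        congr 1
        omega
      rcases hai.eq_or_lt with rfl | hai
      · exact h2 this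
      · exact (h1 a hai).2 this
    · constructor
      · intro e
        apply hu (c + (a - (i + 1))) (by omega)
        rw [eq_iff] at *
        intro k hk
        rw [add_assoc, e _ (by omega)]
        congr 1
        omega
      · intro e
        apply hu c (by omega)
        rw [eq_iff]
        rw [rev_iff] at *
        intro k hk
        rw [e k (n - 1 - k) (by omega), hp k (i + n - a - k) (by omega)]
        congr 1
        omega

theorem inj (n : ℕ) : Set.InjOn (fun i => blk u i n) (New u n) := fun i hi j hj e => by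
  rcases lt_trichotomy i j with h | h | h
  · exact absurd e (hj i h).1
  · exact h
  · exact absurd e.symm (hi j h).1

theorem rep (n i : ℕ) : ∃ c ∈ New u n, blk u c n = blk u i n ∨ (blk u c n).reverse = blk u i n := by
  induction i using Nat.strong_induction_on with
  | _ i ih =>
    by_cases h : i ∈ New u n
    · exact ⟨i, h, .inl rfl⟩
    · simp only [New, Set.mem_ofPred_eq, not_forall, not_and_or, not_not] at h
      obtain ⟨c, hc, e⟩ := h
      obtain ⟨d, hd, e'⟩ := ih c hc
      refine ⟨d, hd, ?_⟩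
      rcases e with e | e <;> rcases e' with e' | e' <;> rw [← e, ← e'] <;> simp

theorem cnt [Finite A] (hr : ∀ w ∈ Fac u, w.reverse ∈ Fac u) (n : ℕ) : (New u n).Finite ∧
    P u n = {i ∈ New u n | Pal u i n}.ncard ∧
    C u n = (New u n).ncard + {i ∈ New u n | ¬ Pal u i n}.ncard := by
  have hf : (New u n).Finite := Set.Finite.of_finite_image
    ((List.finite_length_eq A n).subset (by rintro _ ⟨i, -, rfl⟩; simp)) (inj n)
  refine ⟨hf, ?_, ?_⟩
  · rw [P, ← Set.InjOn.ncard_image ((inj n).mono fun i hi => hi.1)]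
    congr 2
    ext w
    constructor
    · rintro ⟨⟨i, m, rfl⟩, h1, h2⟩
      rw [len] at h1
      subst h1
      obtain ⟨c, hc, e⟩ := rep (u := u) m i
      have : blk u c m = blk u i m := by
        rcases e with e | e
        · exact e
        · rw [← h2, ← e, List.reverse_reverse]
      exact ⟨c, ⟨hc, by unfold Pal; rw [this, h2]⟩, this⟩
    · rintro ⟨i, ⟨-, h⟩, rfl⟩
      exact ⟨⟨_, _, rfl⟩, len _ _, h⟩
  · have i2 : Set.InjOn (fun i => (blk u i n).reverse) {i ∈ New u n | ¬ Pal u i n} :=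
      fun i hi j hj e => inj n hi.1 hj.1 (List.reverse_injective e)
    rw [C, ← Set.InjOn.ncard_image (inj n), ← Set.InjOn.ncard_image i2, ← Nat.cast_add,
      ← Set.ncard_union_eq _ (hf.image _) ((hf.subset fun i hi => hi.1).image _)]
    · congr 2
      ext w
      constructor
      · rintro ⟨⟨i, m, rfl⟩, h1⟩
        rw [len] at h1
        subst h1
        obtain ⟨c, hc, e | e⟩ := rep (u := u) m i
        · exact .inl ⟨c, hc, e⟩
        · by_cases hp : Pal u c m
          · exact .inl ⟨c, hc, hp.symm.trans e⟩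
          · exact .inr ⟨c, ⟨hc, hp⟩, e⟩
      · rintro (⟨i, -, rfl⟩ | ⟨i, -, rfl⟩)
        · exact ⟨⟨_, _, rfl⟩, len _ _⟩
        · exact ⟨hr _ ⟨_, _, rfl⟩, by simp⟩
    · rw [Set.disjoint_left]
      rintro _ ⟨i, hi, rfl⟩ ⟨j, ⟨hj, hp⟩, e⟩
      rcases lt_trichotomy i j with h | rfl | h
      · exact (hj i h).2 (by rw [← List.reverse_reverse (blk u j n)]; exact congrArg _ e.symm)
      · exact hp e
      · exact (hi j h).2 e

theorem result {A : Type} [Finite A] (u : ℕ → A) (hr : ∀ w ∈ Fac u, w.reverse ∈ Fac u)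
    (hi : {w ∈ Fac u | w.reverse = w}.Infinite) (K : ℕ)
    (H : ∀ w v, w ∈ Fac u → w.reverse = w → K ≤ w.length → CRW u w v → v.reverse = v) :
    ∃ N, ∀ n ≥ N, T u n = 0 := by
  obtain ⟨N, hN⟩ := uni H hi
  refine ⟨N, fun n hn => ?_⟩
  obtain ⟨f1, p1, c1⟩ := cnt hr n
  obtain ⟨f2, p2, c2⟩ := cnt hr (n + 1)
  have sp : ∀ m, (New u m).Finite → (New u m).ncard =
      {i ∈ New u m | Pal u i m}.ncard + {i ∈ New u m | ¬ Pal u i m}.ncard := fun m f => by
    rw [← Set.ncard_union_eq _ (f.subset fun i hi => hi.1) (f.subset fun i hi => hi.1)]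
    · congr 1
      ext i
      simp only [Set.mem_union, Set.mem_ofPred_eq]
      by_cases h : Pal u i m <;> simp [h]
    · rw [Set.disjoint_left]
      exact fun i x y => y.2 x.2
  have key : New u n = insert 0 (Nat.succ '' {i ∈ New u (n + 1) | ¬ Pal u i (n + 1)}) := by
    ext i
    rcases i with _ | i
    · simp [New]
    · obtain ⟨a, x, y, z⟩ := hN (i + 1 + n) (by omega)
      rw [step x y z]
      simp
  have k2 : (New u n).ncard = {i ∈ New u (n + 1) | ¬ Pal u i (n + 1)}.ncard + 1 := by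
    rw [key, Set.ncard_insert_of_notMem (by simp) ((f2.subset fun i hi => hi.1).image _),
      Set.ncard_image_of_injective _ Nat.succ_injective]
  have s1 := sp n f1
  have s2 := sp _ f2
  unfold T
  omega

end Pool.Agent.Results.MP_0fbb7a_co.Yes
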